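import Mathlib
import Pool.Agent.H715.U8.Uni

set_option autoImplicit false

/-!
A universal polynomial with eight unknowns.
-/

namespace Pool.Agent.Results.MP_2027e1_lc.EightUnknowns

open MvPolynomial

/-- There is a universal polynomial with eight unknowns: a polynomial `P` with integer coefficients
in the variables `i, x, y_1, ..., y_8` such that for every recursively enumerable set `S` of
natural numbers there is a positive integer `i` with
`x ∈ S ↔ ∃ y_1, ..., y_8 ∈ ℕ, P(i, x, y_1, ..., y_8) = 0` for all natural numbers `x`. -/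
theorem result : ∃ P : MvPolynomial (Fin 10) ℤ, ∀ S : Set ℕ, REPred (fun x : ℕ => x ∈ S) →
    ∃ i : ℕ, 0 < i ∧ ∀ x : ℕ, x ∈ S ↔ ∃ y : Fin 8 → ℕ,
      eval (Fin.cons (i : ℤ) (Fin.cons (x : ℤ) (fun j => (y j : ℤ))) : Fin 10 → ℤ) P = 0 := by
  obtain ⟨P, hP⟩ := Pool.Agent.H715.U8.exists_universal
  exact ⟨P, fun S hS => hP (fun x => x ∈ S) hS⟩

end Pool.Agent.Results.MP_2027e1_lc.EightUnknowns
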